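import Mathlib
import Pool.Agent.P.MP_3fef46_co.Data

/-!
Plane geometry lemmas: orientation determinant, crossing segments, points inside triangles.
-/

namespace Pool.Agent.P.MP_3fef46_co

/-- the orientation determinant of three real points -/
def det (p q r : ℝ × ℝ) : ℝ := (q.1 - p.1) * (r.2 - p.2) - (q.2 - p.2) * (r.1 - p.1)

/-- the embedding of natural points in the real plane -/
def emb : ℕ × ℕ ↪ ℝ × ℝ :=
  ⟨fun p => ((p.1 : ℝ), (p.2 : ℝ)), by
    intro p q h
    simp only [Prod.mk.injEq, Nat.cast_inj] at h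
    exact Prod.ext h.1 h.2⟩

theorem emb_fst (p : ℕ × ℕ) : (emb p).1 = (p.1 : ℝ) := rfl
theorem emb_snd (p : ℕ × ℕ) : (emb p).2 = (p.2 : ℝ) := rfl

theorem det_pos_of_pos {p q r : ℕ × ℕ} (h : pos p q r = true) :
    0 < det (emb p) (emb q) (emb r) := by
  unfold pos at h
  rw [Nat.blt_eq] at h
  have h' : ((q.1 * p.2 + p.1 * r.2 + r.1 * q.2 : ℕ) : ℝ) <
      ((q.1 * r.2 + p.1 * q.2 + r.1 * p.2 : ℕ) : ℝ) := by exact_mod_cast h
  push_cast at h'
  simp only [det, emb_fst, emb_snd]
  nlinarith [h']

theorem zer_of_det {p q r : ℕ × ℕ} (h : det (emb p) (emb q) (emb r) = 0) : zer p q r = true := by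
  unfold zer
  rw [Nat.beq_eq]
  simp only [det, emb_fst, emb_snd] at h
  have h' : ((q.1 * p.2 + p.1 * r.2 + r.1 * q.2 : ℕ) : ℝ) =
      ((q.1 * r.2 + p.1 * q.2 + r.1 * p.2 : ℕ) : ℝ) := by
    push_cast
    linarith [h]
  exact_mod_cast h'

theorem det_eq_zero_of_collinear {x y z : ℝ × ℝ}
    (h : Collinear ℝ ({x, y, z} : Set (ℝ × ℝ))) : det x y z = 0 := by
  rw [collinear_iff_of_mem (p₀ := x) (by simp)] at h
  obtain ⟨v, hv⟩ := h
  obtain ⟨r, hr⟩ := hv y (by simp)
  obtain ⟨s, hs⟩ := hv z (by simp)
  rw [hr, hs]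
  simp only [det, vadd_eq_add, Prod.fst_add, Prod.snd_add, Prod.smul_fst, Prod.smul_snd,
    smul_eq_mul]
  ring

theorem mem_hull_of_inside {A : Set (ℝ × ℝ)} {a b c d : ℝ × ℝ} (ha : a ∈ A) (hb : b ∈ A)
    (hc : c ∈ A) (h1 : 0 < det a b d) (h2 : 0 < det b c d) (h3 : 0 < det c a d) :
    d ∈ convexHull ℝ A := by
  have hconv := convex_convexHull ℝ A
  have ha' := subset_convexHull ℝ A ha
  have hb' := subset_convexHull ℝ A hb
  have hc' := subset_convexHull ℝ A hc
  set u := det b c d with hu
  set v := det c a d with hv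
  set w := det a b d with hw
  have huv : 0 < u + v := by positivity
  have hD : 0 < u + v + w := by positivity
  have hm : (u / (u + v)) • a + (v / (u + v)) • b ∈ convexHull ℝ A :=
    hconv ha' hb' (by positivity) (by positivity) (by field_simp)
  have hd : ((u + v) / (u + v + w)) • ((u / (u + v)) • a + (v / (u + v)) • b) +
      (w / (u + v + w)) • c ∈ convexHull ℝ A :=
    hconv hm hc' (by positivity) (by positivity) (by field_simp)
  have e : ((u + v) / (u + v + w)) • ((u / (u + v)) • a + (v / (u + v)) • b) +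
      (w / (u + v + w)) • c = d := by
    ext
    · simp only [Prod.fst_add, Prod.smul_fst, smul_eq_mul]
      field_simp
      simp only [hu, hv, hw, det]
      ring
    · simp only [Prod.snd_add, Prod.smul_snd, smul_eq_mul]
      field_simp
      simp only [hu, hv, hw, det]
      ring
  rwa [e] at hd

theorem not_disjoint_of_cross {A B : Set (ℝ × ℝ)} {a b c d : ℝ × ℝ} (ha : a ∈ A) (hb : b ∈ A)
    (hc : c ∈ B) (hd : d ∈ B) (h1 : 0 < det a b c) (h2 : 0 < det b a d) (h3 : 0 < det c d b)
    (h4 : 0 < det d c a) : ¬ Disjoint (convexHull ℝ A) (convexHull ℝ B) := by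
  intro hdis
  have ha' := subset_convexHull ℝ A ha
  have hb' := subset_convexHull ℝ A hb
  have hc' := subset_convexHull ℝ B hc
  have hd' := subset_convexHull ℝ B hd
  set s := det a b c with hs
  set t := det b a d with ht
  set u := det c d b with hu
  set v := det d c a with hv
  have huv : 0 < u + v := by positivity
  have hst : 0 < s + t := by positivity
  have hm : (u / (u + v)) • a + (v / (u + v)) • b ∈ convexHull ℝ A :=
    convex_convexHull ℝ A ha' hb' (by positivity) (by positivity) (by field_simp)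
  have hn : (t / (s + t)) • c + (s / (s + t)) • d ∈ convexHull ℝ B :=
    convex_convexHull ℝ B hc' hd' (by positivity) (by positivity) (by field_simp; ring)
  have e : (u / (u + v)) • a + (v / (u + v)) • b = (t / (s + t)) • c + (s / (s + t)) • d := by
    ext
    · simp only [Prod.fst_add, Prod.smul_fst, smul_eq_mul]
      field_simp
      simp only [hs, ht, hu, hv, det]
      ring
    · simp only [Prod.snd_add, Prod.smul_snd, smul_eq_mul]
      field_simp
      simp only [hs, ht, hu, hv, det]
      ring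
  rw [e] at hm
  exact Set.disjoint_left.mp hdis hm hn

end Pool.Agent.P.MP_3fef46_co
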