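import Mathlib
import Pool.Agent.P.MP_3fef46_co.Geom

/-!
No (10,10,10,2)-balanced partition exists for the 32 red and 32 blue points of `Data`.
-/

namespace Pool.Agent.P.MP_3fef46_co

open Classical in
/-- number of points of cluster `c` lying in `A` -/
noncomputable def cnt (A : Finset (ℝ × ℝ)) (c : ℕ) : ℕ :=
  ((cp c).toFinset.filter (fun p => emb p ∈ A)).card

/-- the set of clusters met by `A`, as a bit mask -/
noncomputable def mask (A : Finset (ℝ × ℝ)) : ℕ :=
  Nat.ofBits (fun c : Fin 8 => decide (cnt A c ≠ 0))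

theorem mask_lt (A : Finset (ℝ × ℝ)) : mask A < 256 := Nat.ofBits_lt_two_pow _

theorem testBit_mask (A : Finset (ℝ × ℝ)) {c : ℕ} (hc : c < 8) :
    (mask A).testBit c = decide (cnt A c ≠ 0) := by
  unfold mask
  rw [Nat.testBit_ofBits_lt _ _ hc]

theorem exists_of_testBit {A : Finset (ℝ × ℝ)} {c : ℕ} (hc : c < 8)
    (h : (mask A).testBit c = true) : ∃ p ∈ cp c, emb p ∈ A := by
  rw [testBit_mask A hc, decide_eq_true_eq] at h
  obtain ⟨p, hp⟩ := Finset.card_ne_zero.mp h
  simp only [Finset.mem_filter, List.mem_toFinset] at hp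
  exact ⟨p, hp.1, hp.2⟩

theorem robust {a b c : ℕ} (ha : a < 8) (hb : b < 8) (hc : c < 8) (h : cpos a b c = true)
    {p q r : ℕ × ℕ} (hp : p ∈ cp a) (hq : q ∈ cp b) (hr : r ∈ cp c) :
    0 < det (emb p) (emb q) (emb r) := by
  have h1 := allLt_spec (allLt_spec (allLt_spec robust_true a ha) b hb) c hc
  simp only [h, Bool.not_true, Bool.false_or, List.all_eq_true] at h1
  exact det_pos_of_pos (h1 p hp q hq r hr)

theorem not_ins {A B : Finset (ℝ × ℝ)}
    (hdis : Disjoint (convexHull ℝ (A : Set (ℝ × ℝ))) (convexHull ℝ (B : Set (ℝ × ℝ)))) :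
    ¬ (insL.any (fun t => (mask A).testBit t.1 && (mask A).testBit t.2.1 &&
      (mask A).testBit t.2.2.1 && (mask B).testBit t.2.2.2) = true) := by
  intro h
  rw [List.any_eq_true] at h
  obtain ⟨t, ht, h⟩ := h
  have h0 := List.all_eq_true.mp insL_true t ht
  simp only [Bool.and_eq_true, Nat.blt_eq] at h h0
  obtain ⟨⟨⟨⟨⟨⟨l1, l2⟩, l3⟩, l4⟩, o1⟩, o2⟩, o3⟩ := h0
  obtain ⟨⟨⟨b1, b2⟩, b3⟩, b4⟩ := h
  obtain ⟨p, hp, hpA⟩ := exists_of_testBit l1 b1
  obtain ⟨q, hq, hqA⟩ := exists_of_testBit l2 b2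
  obtain ⟨r, hr, hrA⟩ := exists_of_testBit l3 b3
  obtain ⟨s, hs, hsB⟩ := exists_of_testBit l4 b4
  have hin : emb s ∈ convexHull ℝ (A : Set (ℝ × ℝ)) :=
    mem_hull_of_inside (Finset.mem_coe.mpr hpA) (Finset.mem_coe.mpr hqA) (Finset.mem_coe.mpr hrA)
      (robust l1 l2 l4 o1 hp hq hs) (robust l2 l3 l4 o2 hq hr hs) (robust l3 l1 l4 o3 hr hp hs)
  exact Set.disjoint_left.mp hdis hin (subset_convexHull ℝ _ (Finset.mem_coe.mpr hsB))

theorem cmp_of_disjoint {A B : Finset (ℝ × ℝ)}
    (hdis : Disjoint (convexHull ℝ (A : Set (ℝ × ℝ))) (convexHull ℝ (B : Set (ℝ × ℝ)))) :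
    cmp (mask A) (mask B) = true := by
  have h1 := allLt_spec (allLt_spec sound_true _ (mask_lt A)) _ (mask_lt B)
  rw [Bool.or_eq_true] at h1
  rcases h1 with h1 | h1
  · exact h1
  exfalso
  unfold incompat at h1
  rw [Bool.or_eq_true, Bool.or_eq_true] at h1
  rcases h1 with (h | h) | h
  · rw [List.any_eq_true] at h
    obtain ⟨t, ht, h⟩ := h
    have h0 := List.all_eq_true.mp crossL_true t ht
    simp only [Bool.and_eq_true, Nat.blt_eq] at h h0
    obtain ⟨⟨⟨⟨⟨⟨⟨l1, l2⟩, l3⟩, l4⟩, o1⟩, o2⟩, o3⟩, o4⟩ := h0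
    obtain ⟨⟨⟨b1, b2⟩, b3⟩, b4⟩ := h
    obtain ⟨p, hp, hpA⟩ := exists_of_testBit l1 b1
    obtain ⟨q, hq, hqA⟩ := exists_of_testBit l2 b2
    obtain ⟨r, hr, hrB⟩ := exists_of_testBit l3 b3
    obtain ⟨s, hs, hsB⟩ := exists_of_testBit l4 b4
    exact not_disjoint_of_cross (Finset.mem_coe.mpr hpA) (Finset.mem_coe.mpr hqA)
      (Finset.mem_coe.mpr hrB) (Finset.mem_coe.mpr hsB)
      (robust l1 l2 l3 o1 hp hq hr) (robust l2 l1 l4 o2 hq hp hs)
      (robust l3 l4 l2 o3 hr hs hq) (robust l4 l3 l1 o4 hs hr hp) hdis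
  · exact not_ins hdis h
  · exact not_ins hdis.symm h

noncomputable def RR : Finset (ℝ × ℝ) := redL.toFinset.map emb

noncomputable def BB : Finset (ℝ × ℝ) := blueL.toFinset.map emb

theorem card_le_cnt (A : Finset (ℝ × ℝ)) (c : ℕ) :
    (A ∩ (cp c).toFinset.map emb).card ≤ cnt A c := by
  classical
  unfold cnt
  rw [← Finset.card_map emb]
  apply Finset.card_le_card
  intro z hz
  simp only [Finset.mem_inter, Finset.mem_map, Finset.mem_filter] at hz ⊢
  obtain ⟨hzA, p, hp, rfl⟩ := hz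
  exact ⟨p, ⟨hp, hzA⟩, rfl⟩

theorem red_le (A : Finset (ℝ × ℝ)) : (A ∩ RR).card ≤ cnt A 1 + cnt A 6 + cnt A 7 := by
  have e : RR = (cp 1).toFinset.map emb ∪ (cp 6).toFinset.map emb ∪ (cp 7).toFinset.map emb := by
    simp only [RR, redL, List.toFinset_append, Finset.map_union]
    rfl
  rw [e, Finset.inter_union_distrib_left, Finset.inter_union_distrib_left]
  refine (Finset.card_union_le _ _).trans (Nat.add_le_add ((Finset.card_union_le _ _).trans
    (Nat.add_le_add (card_le_cnt _ _) (card_le_cnt _ _))) (card_le_cnt _ _))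

theorem blue_le (A : Finset (ℝ × ℝ)) :
    (A ∩ BB).card ≤ cnt A 0 + cnt A 2 + cnt A 3 + cnt A 4 + cnt A 5 := by
  have e : BB = (cp 0).toFinset.map emb ∪ (cp 2).toFinset.map emb ∪ (cp 3).toFinset.map emb ∪
      (cp 4).toFinset.map emb ∪ (cp 5).toFinset.map emb := by
    simp only [BB, blueL, List.toFinset_append, Finset.map_union]
    rfl
  rw [e, Finset.inter_union_distrib_left, Finset.inter_union_distrib_left,
    Finset.inter_union_distrib_left, Finset.inter_union_distrib_left]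
  refine (Finset.card_union_le _ _).trans (Nat.add_le_add ((Finset.card_union_le _ _).trans
    (Nat.add_le_add ((Finset.card_union_le _ _).trans (Nat.add_le_add
    ((Finset.card_union_le _ _).trans (Nat.add_le_add (card_le_cnt _ _) (card_le_cnt _ _)))
    (card_le_cnt _ _))) (card_le_cnt _ _))) (card_le_cnt _ _))

theorem sum_cnt_le {P : Fin 4 → Finset (ℝ × ℝ)} (hd : ∀ i j, i ≠ j → Disjoint (P i) (P j))
    (I : Finset (Fin 4)) (U c : ℕ) (hc : c < 8)
    (hU : ∀ i ∈ I, (mask (P i)).testBit c = true → U.testBit c = true) :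
    ∑ i ∈ I, cnt (P i) c ≤ bif U.testBit c then (cp c).length else 0 := by
  classical
  cases hb : U.testBit c with
  | false =>
    simp only [cond_false, nonpos_iff_eq_zero]
    apply Finset.sum_eq_zero
    intro i hi
    by_contra hne
    have := hU i hi (by rw [testBit_mask _ hc]; simpa using hne)
    rw [hb] at this
    exact absurd this (by simp)
  | true =>
    simp only [cond_true]
    unfold cnt
    rw [← Finset.card_biUnion]
    · refine (Finset.card_le_card ?_).trans (List.toFinset_card_le (cp c))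
      intro p hp
      simp only [Finset.mem_biUnion, Finset.mem_filter] at hp
      obtain ⟨i, _, hp, _⟩ := hp
      exact hp
    · intro i _ j _ hij
      simp only [Function.onFun]
      rw [Finset.disjoint_left]
      intro p hp hq
      simp only [Finset.mem_filter] at hp hq
      exact Finset.disjoint_left.mp (hd i j hij) hp.2 hq.2

theorem ok_of {P : Fin 4 → Finset (ℝ × ℝ)} (hd : ∀ i j, i ≠ j → Disjoint (P i) (P j))
    (ns : Fin 4 → ℕ) (hcard : ∀ i, (P i ∩ RR).card = 1 * ns i ∧ (P i ∩ BB).card = 1 * ns i)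
    (I : Finset (Fin 4)) (U n : ℕ) (hn : n = ∑ i ∈ I, ns i)
    (hU : ∀ c, ∀ i ∈ I, (mask (P i)).testBit c = true → U.testBit c = true) :
    ok U n = true := by
  have h0 := sum_cnt_le hd I U 0 (by norm_num) (hU 0)
  have h1 := sum_cnt_le hd I U 1 (by norm_num) (hU 1)
  have h2 := sum_cnt_le hd I U 2 (by norm_num) (hU 2)
  have h3 := sum_cnt_le hd I U 3 (by norm_num) (hU 3)
  have h4 := sum_cnt_le hd I U 4 (by norm_num) (hU 4)
  have h5 := sum_cnt_le hd I U 5 (by norm_num) (hU 5)
  have h6 := sum_cnt_le hd I U 6 (by norm_num) (hU 6)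
  have h7 := sum_cnt_le hd I U 7 (by norm_num) (hU 7)
  have e0 : (cp 0).length = 3 := rfl
  have e1 : (cp 1).length = 11 := rfl
  have e2 : (cp 2).length = 3 := rfl
  have e3 : (cp 3).length = 17 := rfl
  have e4 : (cp 4).length = 3 := rfl
  have e5 : (cp 5).length = 6 := rfl
  have e6 : (cp 6).length = 11 := rfl
  have e7 : (cp 7).length = 10 := rfl
  rw [e0] at h0; rw [e1] at h1; rw [e2] at h2; rw [e3] at h3
  rw [e4] at h4; rw [e5] at h5; rw [e6] at h6; rw [e7] at h7
  have hr : n ≤ ∑ i ∈ I, (cnt (P i) 1 + cnt (P i) 6 + cnt (P i) 7) := by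
    rw [hn]
    apply Finset.sum_le_sum
    intro i _
    have := red_le (P i)
    rw [(hcard i).1] at this
    omega
  have hb : n ≤ ∑ i ∈ I, (cnt (P i) 0 + cnt (P i) 2 + cnt (P i) 3 + cnt (P i) 4 +
      cnt (P i) 5) := by
    rw [hn]
    apply Finset.sum_le_sum
    intro i _
    have := blue_le (P i)
    rw [(hcard i).2] at this
    omega
  simp only [Finset.sum_add_distrib] at hr hb
  unfold ok wr wb
  rw [Bool.and_eq_true, Nat.ble_eq, Nat.ble_eq]
  constructor <;> omega

theorem no_partition (P : Fin 4 → Finset (ℝ × ℝ)) (hd : ∀ i j, i ≠ j → Disjoint (P i) (P j))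
    (hconv : ∀ i j, i ≠ j →
      Disjoint (convexHull ℝ (P i : Set (ℝ × ℝ))) (convexHull ℝ (P j : Set (ℝ × ℝ))))
    (hcard : ∀ i, (P i ∩ RR).card = 1 * ![10, 10, 10, 2] i ∧
      (P i ∩ BB).card = 1 * ![10, 10, 10, 2] i) : False := by
  have c01 := cmp_of_disjoint (hconv 0 1 (by decide))
  have c02 := cmp_of_disjoint (hconv 0 2 (by decide))
  have c03 := cmp_of_disjoint (hconv 0 3 (by decide))
  have c12 := cmp_of_disjoint (hconv 1 2 (by decide))
  have c13 := cmp_of_disjoint (hconv 1 3 (by decide))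
  have c23 := cmp_of_disjoint (hconv 2 3 (by decide))
  have K := ok_of hd _ hcard
  have o0 := K {0} (mask (P 0)) 10 (by decide) (by simp)
  have o1 := K {1} (mask (P 1)) 10 (by decide) (by simp)
  have o2 := K {2} (mask (P 2)) 10 (by decide) (by simp)
  have o3 := K {3} (mask (P 3)) 2 (by decide) (by simp)
  have o01 := K {0, 1} (mask (P 0) ||| mask (P 1)) 20 (by decide)
    (by simp +contextual [Nat.testBit_or])
  have o02 := K {0, 2} (mask (P 0) ||| mask (P 2)) 20 (by decide)
    (by simp +contextual [Nat.testBit_or])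
  have o12 := K {1, 2} (mask (P 1) ||| mask (P 2)) 20 (by decide)
    (by simp +contextual [Nat.testBit_or])
  have o03 := K {0, 3} (mask (P 0) ||| mask (P 3)) 12 (by decide)
    (by simp +contextual [Nat.testBit_or])
  have o13 := K {1, 3} (mask (P 1) ||| mask (P 3)) 12 (by decide)
    (by simp +contextual [Nat.testBit_or])
  have o23 := K {2, 3} (mask (P 2) ||| mask (P 3)) 12 (by decide)
    (by simp +contextual [Nat.testBit_or])
  have o012 := K {0, 1, 2} (mask (P 0) ||| mask (P 1) ||| mask (P 2)) 30 (by decide)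
    (by simp +contextual [Nat.testBit_or])
  have o013 := K {0, 1, 3} (mask (P 0) ||| mask (P 1) ||| mask (P 3)) 22 (by decide)
    (by simp +contextual [Nat.testBit_or])
  have o023 := K {0, 2, 3} (mask (P 0) ||| mask (P 2) ||| mask (P 3)) 22 (by decide)
    (by simp +contextual [Nat.testBit_or])
  have o123 := K {1, 2, 3} (mask (P 1) ||| mask (P 2) ||| mask (P 3)) 22 (by decide)
    (by simp +contextual [Nat.testBit_or])
  have o0123 := K {0, 1, 2, 3} (mask (P 0) ||| mask (P 1) ||| mask (P 2) ||| mask (P 3)) 32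
    (by decide) (by simp +contextual [Nat.testBit_or])
  have h1 := allLt_spec search_true _ (mask_lt (P 0))
  simp only [o0, Bool.not_true, Bool.false_or] at h1
  have h2 := allLt_spec h1 _ (mask_lt (P 1))
  simp only [c01, o1, o01, Bool.and_self, Bool.not_true, Bool.false_or] at h2
  have h3 := allLt_spec h2 _ (mask_lt (P 2))
  simp only [c02, c12, o2, o02, o12, o012, Bool.and_self, Bool.not_true, Bool.false_or] at h3
  have h4 := allLt_spec h3 _ (mask_lt (P 3))
  simp only [c03, c13, c23, o3, o03, o13, o23, o013, o023, o123, o0123, Bool.and_self,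
    Bool.not_true] at h4
  exact absurd h4 (by decide)

theorem RR_card : RR.card = 1 * 32 := by
  have h : redL.Nodup := (List.nodup_append.mp pts_nodup).1
  rw [RR, Finset.card_map, List.toFinset_card_of_nodup h]
  rfl

theorem BB_card : BB.card = 1 * 32 := by
  have h : blueL.Nodup := (List.nodup_append.mp pts_nodup).2.1
  rw [BB, Finset.card_map, List.toFinset_card_of_nodup h]
  rfl

theorem RB_disjoint : Disjoint RR BB := by
  have h := (List.nodup_append.mp pts_nodup).2.2
  rw [RR, BB, Finset.disjoint_map, Finset.disjoint_left]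
  intro p hp hq
  exact h p (List.mem_toFinset.mp hp) p (List.mem_toFinset.mp hq) rfl

theorem mem_pts {x : ℝ × ℝ} (hx : x ∈ RR ∪ BB) : ∃ p ∈ pts, emb p = x := by
  simp only [RR, BB, Finset.mem_union, Finset.mem_map, List.mem_toFinset] at hx
  rcases hx with ⟨p, hp, rfl⟩ | ⟨p, hp, rfl⟩
  · exact ⟨p, List.mem_append_left _ hp, rfl⟩
  · exact ⟨p, List.mem_append_right _ hp, rfl⟩

theorem eq_of_same {p q : ℕ × ℕ} (h : same p q = true) : p = q := by
  unfold same at h
  rw [Bool.and_eq_true, Nat.beq_eq, Nat.beq_eq] at h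
  exact Prod.ext h.1 h.2

theorem general_position : ∀ x ∈ RR ∪ BB, ∀ y ∈ RR ∪ BB, ∀ z ∈ RR ∪ BB, x ≠ y → x ≠ z → y ≠ z →
    ¬ Collinear ℝ ({x, y, z} : Set (ℝ × ℝ)) := by
  intro x hx y hy z hz hxy hxz hyz hcol
  obtain ⟨p, hp, rfl⟩ := mem_pts hx
  obtain ⟨q, hq, rfl⟩ := mem_pts hy
  obtain ⟨r, hr, rfl⟩ := mem_pts hz
  have h := List.all_eq_true.mp (List.all_eq_true.mp genpos_true p hp) q hq
  rw [Bool.or_eq_true] at h
  rcases h with h | h
  · exact hxy (by rw [eq_of_same h])
  have h2 := List.all_eq_true.mp h r hr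
  rw [Bool.or_eq_true, Bool.or_eq_true] at h2
  rcases h2 with (h2 | h2) | h2
  · exact hxz (by rw [eq_of_same h2])
  · exact hyz (by rw [eq_of_same h2])
  · rw [zer_of_det (det_eq_zero_of_collinear hcol)] at h2
    exact absurd h2 (by decide)

end Pool.Agent.P.MP_3fef46_co
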